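import Mathlib

/-! Piecewise Euclidean simplicial complexes of non-positive curvature. -/

namespace Pool.Agent.Work.MP_9d1ffa_al.Px

open Set

variable {V : Type}

/-- `x` is the vector of barycentric coordinates of a point of the closed simplex `s` -/
def In (s : Finset V) (x : V → ℝ) : Prop :=
  (∀ v, 0 ≤ x v) ∧ (∀ v ∉ s, x v = 0) ∧ ∑ v ∈ s, x v = 1

/-- the quadratic form of the Euclidean simplex `s` with squared edge lengths `q` -/
noncomputable def Qf (q : V → V → ℝ) (s : Finset V) (w : V → ℝ) : ℝ :=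
  -(1 / 2) * ∑ u ∈ s, ∑ v ∈ s, q u v * w u * w v

/-- the distance in the Euclidean simplex `s` with squared edge lengths `q` -/
noncomputable def ed (q : V → V → ℝ) (s : Finset V) (x y : V → ℝ) : ℝ := √(Qf q s (x - y))

/-- there is a chain of `m` segments in simplices of `F` from `x` to `y` of total length `l` -/
def Chn (F : Set (Finset V)) (q : V → V → ℝ) (m : ℕ) (x y : V → ℝ) (l : ℝ) : Prop :=
  ∃ (z : ℕ → V → ℝ) (s : ℕ → Finset V), z 0 = x ∧ z m = y ∧
    (∀ i < m, s i ∈ F ∧ In (s i) (z i) ∧ In (s i) (z (i + 1))) ∧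
      ∑ i ∈ Finset.range m, ed q (s i) (z i) (z (i + 1)) = l

/-- the CAT(0) property: geodesics exist and satisfy the comparison inequality -/
def Cat0 (X : Type) [MetricSpace X] : Prop :=
  ∀ x y : X, ∀ t ∈ Icc (0 : ℝ) 1, ∃ m, ∀ z,
    dist z m ^ 2 ≤ (1 - t) * dist z x ^ 2 + t * dist z y ^ 2 - t * (1 - t) * dist x y ^ 2

/-- `X` is, by barycentric coordinates `co`, the union of the simplices in `F`, of dimension at
most `n`, with squared edge lengths `q` that take finitely many values, with the induced length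
metric, and it is CAT(0) -/
structure Cx {X : Type} [MetricSpace X] (F : Set (Finset V)) (q : V → V → ℝ) (n : ℕ)
    (co : X → V → ℝ) : Prop where
  inj : Function.Injective co
  pts : range co = {x | ∃ s ∈ F, In s x}
  dim : ∀ s ∈ F, s.card ≤ n + 1
  shp : {r | ∃ s ∈ F, ∃ u ∈ s, ∃ v ∈ s, q u v = r}.Finite
  len : ∀ x y, IsGLB {l | ∃ m, Chn F q m (co x) (co y) l} (dist x y)
  cat : Cat0 X

end Pool.Agent.Work.MP_9d1ffa_al.Px
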