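import Pool.Agent.Work.MP_9d1ffa_al.Px.In
import Pool.Agent.Work.MP_9d1ffa_al.Cu.Ln
import Pool.Agent.Work.MP_9d1ffa_al.Ga.Zc
import Pool.Agent.Work.MP_9d1ffa_al.Gd.Zm

/-! Transfer data for acylindrical actions on CAT(0) simplicial complexes. -/

namespace Pool.Agent.Work.MP_9d1ffa_al.Px

open Set Subgroup MulAction

variable {V X : Type} [MetricSpace X] {F : Set (Finset V)} {q : V → V → ℝ} {n : ℕ}
  {co : X → V → ℝ} {G : Type} [Group G] [MulAction G V] [MulAction G X]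

/-- the subgroups that virtually are cyclic or fix a point -/
def VF (X : Type) [MulAction G X] (L : Subgroup G) : Prop :=
  ∃ C ≤ L, C.relIndex L ≠ 0 ∧ ((∃ a, C ≤ zpowers a) ∨ ∃ x : X, C ≤ stabilizer G x)

theorem sp_rel {c : Sm V n} (f : (sp c).Finite) {v : V} (hv : v ∈ sp c) :
    (stabilizer G v).relIndex (stabilizer G c) ≠ 0 := by
  change (stabilizer (stabilizer G c) v).index ≠ 0
  rw [index_stabilizer]
  refine ncard_ne_zero_of_mem (mem_orbit_self v) (f.subset ?_)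
  rintro _ ⟨g, rfl⟩
  exact sp_smul g.2 hv

theorem exists_gd (h : Cx F q n co) [Nonempty X]
    (iso : ∀ (g : G) (x y : X), dist (g • x) (g • y) = dist x y)
    (eqv : ∀ (g : G) x v, co (g • x) (g • v) = co x v) (tf : ∀ g : G, IsOfFinOrder g → g = 1)
    (D : ℕ) (acyl : ∀ (g : G) (x y : X), (D : ℝ) ≤ dist x y → g • x = x → g • y = y → g = 1) :
    ∃ A : Ga.Geo G X (Sm V n), A.Gd (VF X) := by
  obtain ⟨A, -, u, f⟩ := exists_geo h iso eqv
  obtain ⟨C, hC⟩ := sp_near h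
  have rel : ∀ c x, 0 < A.mg 1 c x →
      ∃ y, dist y x ≤ C ∧ (stabilizer G y).relIndex (stabilizer G c) ≠ 0 := fun c x a => by
    obtain ⟨f1, ⟨v, hv⟩, f2⟩ := f 1 c x one_pos a
    obtain ⟨y, y1, y2⟩ := hC x v (f2 v hv)
    exact ⟨y, y2, by
      rw [show stabilizer G y = stabilizer G v from Subgroup.ext fun g => h.vx_fix eqv y1 g]
      exact sp_rel f1 hv⟩
  have c : 1 / (4 * (A.n + 1 : ℝ)) < 1 / (2 * (A.n + 1) * (1 : ℕ)) :=
    one_div_lt_one_div_of_lt (by positivity) (by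
      have : (0 : ℝ) < A.n + 1 := by positivity
      push_cast
      linarith)
  have pw : ∀ (g : G) x, dist (g • x) x ≤ 1 / (4 * (A.n + 1 : ℝ)) →
      ∃ y, dist y x ≤ C ∧ ∃ k, 0 < k ∧ g ^ k ∈ stabilizer G y := fun g x a => by
    obtain ⟨s, hs⟩ := A.mg_big one_pos x
    have s0 : 0 < A.mg 1 s x := lt_of_lt_of_le (by positivity) hs
    have s1 := abs_le.1 (A.mg_lip 1 (g • s) (g • x) x)
    rw [A.mg_smul] at s1
    obtain ⟨y, y1, y2⟩ := rel s x s0
    obtain ⟨k, k1, -, k2⟩ := exists_pow_mem_of_relIndex_ne_zero y2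
      (show g ∈ stabilizer G s from u 1 g s x s0 (by linarith [s1.2]))
    exact ⟨y, y1, k, k1, k2.1⟩
  refine ⟨A, ?_, ?_, ⟨1, one_pos, fun c x a => ?_⟩, fun p Γ hΓ => ?_⟩
  · rintro L L' e ⟨K, -, k, a⟩
    refine ⟨K ⊓ L, inf_le_right, ?_, a.imp (fun ⟨b, a⟩ => ⟨b, inf_le_left.trans a⟩)
      fun ⟨v, a⟩ => ⟨v, inf_le_left.trans a⟩⟩
    rw [inf_relIndex_right]
    exact fun z => k (relIndex_eq_zero_of_le_right e z)
  · rintro L L' e k ⟨K, c, k', a⟩
    exact ⟨K, c.trans e, relIndex_ne_zero_trans k' k, a⟩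
  · obtain ⟨y, -, b⟩ := rel c x a
    exact ⟨_, inf_le_right, by rwa [inf_relIndex_right], .inr ⟨y, inf_le_left⟩⟩
  · obtain ⟨Q, J, a, b, e⟩ := Cu.line_pair (G := G) (X := X) iso
      (c0 := 1 / (4 * (A.n + 1))) (by positivity) (D := D + 2 * C) (fun g x y d hx hy => by
        obtain ⟨v, v2, k, k1, k2⟩ := pw g x hx
        obtain ⟨w, w2, m, m1, m2⟩ := pw g y hy
        refine tf g (isOfFinOrder_iff_pow_eq_one.2 ⟨k * m, Nat.mul_pos k1 m1,
          acyl _ v w ?_ (pow_mul g k m ▸ pow_mem k2 m) (pow_mul' g k m ▸ pow_mem m2 k)⟩)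
        push_cast at d
        linarith [dist_triangle4 x v w y, dist_comm x v]) p hΓ
    refine ⟨Q, J, a, b, fun Y hY s v _ v1 v2 d => ?_⟩
    obtain ⟨x, hx⟩ := e Y (by omega) s v v1 v2 d
    exact ⟨_, le_rfl, by rw [relIndex_self]; exact one_ne_zero,
      .inl ⟨x, (closure_le _).2 fun g ⟨τ, e, k⟩ => hx g τ (by exact_mod_cast e) k⟩⟩

theorem px_zt (h : Cx F q n co) [Nonempty X]
    (iso : ∀ (g : G) (x y : X), dist (g • x) (g • y) = dist x y)
    (eqv : ∀ (g : G) x v, co (g • x) (g • v) = co x v) (tf : ∀ g : G, IsOfFinOrder g → g = 1)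
    (D : ℕ) (acyl : ∀ (g : G) (x y : X), (D : ℝ) ≤ dist x y → g • x = x → g • y = y → g = 1) :
    WL.ZT G (VF X) :=
  let ⟨A, e⟩ := exists_gd h iso eqv tf D acyl
  Ga.Geo.zt (Gd.hasZM A (jn_bi h.cat)) e

end Pool.Agent.Work.MP_9d1ffa_al.Px
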